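import Mathlib

set_option autoImplicit false

namespace Pool.Agent.P.MP_1c213c_co

open Polynomial

/-- Points on the moment curve are in affine general position: a non-constant polynomial
of degree at most `d + 1` takes a given value at no more than `d + 1` points. -/
theorem level_card_le {W : Type*} (τ : W → ℝ) (S : Finset W) (hτ : Set.InjOn τ S) (d : ℕ)
    (x : Fin (d + 1) → ℝ) (hx : x ≠ 0) (s : ℝ) (U : Finset W) (hU : U ⊆ S)
    (hlev : ∀ i ∈ U, ∑ j : Fin (d + 1), x j * τ i ^ ((j : ℕ) + 1) = s) : U.card ≤ d + 1 := by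
  classical
  by_contra hc
  push Not at hc
  set P : ℝ[X] := ∑ j : Fin (d + 1), monomial ((j : ℕ) + 1) (x j) - C s with hP
  have hdeg : P.natDegree ≤ d + 1 := by
    refine (natDegree_sub_le _ _).trans (max_le ?_ (by simp))
    refine natDegree_sum_le_of_forall_le _ _ fun j _ => (natDegree_monomial_le _).trans ?_
    have := j.2
    omega
  have hcard : (U.image τ).card = U.card :=
    Finset.card_image_of_injOn (hτ.mono (by exact_mod_cast hU))
  have h0 : P = 0 := by
    refine eq_zero_of_natDegree_lt_card_of_eval_eq_zero' P (U.image τ) ?_ (by omega)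
    intro t ht
    obtain ⟨i, hi, rfl⟩ := Finset.mem_image.1 ht
    rw [hP, eval_sub, eval_finsetSum, eval_C]
    simp only [eval_monomial]
    rw [hlev i hi, sub_self]
  apply hx
  funext k
  have h1 : P.coeff ((k : ℕ) + 1) = x k := by
    rw [hP, coeff_sub, finsetSum_coeff, coeff_C_succ, sub_zero]
    simp only [coeff_monomial]
    rw [Finset.sum_eq_single k]
    · simp
    · intro j _ hj
      rw [if_neg]
      intro h
      exact hj (Fin.ext (by omega))
    · simp
  rw [← h1, h0]; simp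

/-- The sliding hyperplane. Let `u` be an odd continuous family of real labellings of `W` all of
whose level sets in `S` have at most `k` elements, and assume that deleting at most `k` vertices
never leaves a 2-colourable hypergraph. Then there is an equivariant continuous choice of
weights on edges, the two sides being non-empty and disjoint from each other. -/
theorem slide {V W X : Type*} [Fintype V] [Nonempty V] [TopologicalSpace X] (ν : X → X)
    (hν : Continuous ν) (hνν : ∀ x, ν (ν x) = x)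
    (e : V → Finset W) (hne : ∀ v, (e v).Nonempty) (S : Finset W) (hS : ∀ v, e v ⊆ S)
    (u : X → W → ℝ) (hu : ∀ i, Continuous fun x => u x i) (hodd : ∀ x i, u (ν x) i = - u x i)
    (k : ℕ) (hlev : ∀ x s, ∀ U ⊆ S, (∀ i ∈ U, u x i = s) → U.card ≤ k)
    (hcd : ∀ U ⊆ S, U.card ≤ k → ∀ c : W → Bool,
      ∃ v, (∀ i ∈ e v, i ∉ U) ∧ ∃ b, ∀ i ∈ e v, c i = b) :
    ∃ p : X → V → ℝ, Continuous p ∧ (∀ x v, 0 ≤ p x v) ∧
      (∀ x, ∑ v, p x v + ∑ v, p (ν x) v = 1) ∧ (∀ x, ∃ v, p x v ≠ 0) ∧
      ∀ x v w, p x v ≠ 0 → p (ν x) w ≠ 0 → Disjoint (e v) (e w) := by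
  classical
  obtain ⟨m, hm⟩ : ∃ m : X → V → ℝ, ∀ x v, m x v = (e v).inf' (hne v) (u x) :=
    ⟨fun x v => (e v).inf' (hne v) (u x), fun _ _ => rfl⟩
  have hmc : ∀ v, Continuous fun x => m x v := by
    intro v
    simp only [hm]
    exact Continuous.finset_inf'_apply (hne v) fun i _ => hu i
  have hmle : ∀ x v, ∀ i ∈ e v, m x v ≤ u x i := fun x v i hi => by
    rw [hm]; exact Finset.inf'_le _ hi
  have hmlt : ∀ x v s, (∀ i ∈ e v, s < u x i) → s < m x v := fun x v s h => by
    rw [hm]; exact (Finset.lt_inf'_iff _).2 h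
  obtain ⟨a, ha⟩ : ∃ a : X → ℝ, ∀ x, a x = Finset.univ.sup' Finset.univ_nonempty (m x) :=
    ⟨fun x => Finset.univ.sup' Finset.univ_nonempty (m x), fun _ => rfl⟩
  have hac : Continuous a := by
    have : a = fun x => Finset.univ.sup' Finset.univ_nonempty (m x) := funext ha
    rw [this]
    exact Continuous.finset_sup'_apply Finset.univ_nonempty fun v _ => hmc v
  have hale : ∀ x v, m x v ≤ a x := fun x v => by
    rw [ha]; exact Finset.le_sup' _ (Finset.mem_univ v)
  have haex : ∀ x, ∃ v, a x = m x v := fun x => by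
    obtain ⟨v, -, hv⟩ := Finset.exists_mem_eq_sup' Finset.univ_nonempty (m x)
    exact ⟨v, by rw [ha, hv]⟩
  -- the key inequality
  have key : ∀ x, 0 < a x + a (ν x) := by
    intro x
    by_contra hc
    push Not at hc
    obtain ⟨v, hv, b, hb⟩ := hcd (S.filter fun i => u x i = a x) (Finset.filter_subset _ _)
      (hlev x (a x) _ (Finset.filter_subset _ _) fun i hi => (Finset.mem_filter.1 hi).2)
      (fun i => decide (a x < u x i))
    have hv' : ∀ i ∈ e v, u x i ≠ a x := fun i hi h =>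
      hv i hi (Finset.mem_filter.2 ⟨hS v hi, h⟩)
    cases b with
    | true =>
      have h1 : a x < m x v := hmlt x v _ fun i hi => of_decide_eq_true (hb i hi)
      exact absurd (hale x v) (not_le.2 h1)
    | false =>
      have h1 : - a x < m (ν x) v := hmlt (ν x) v _ fun i hi => by
        have h2 : ¬ a x < u x i := of_decide_eq_false (hb i hi)
        have h3 : u x i < a x := lt_of_le_of_ne (not_lt.1 h2) (hv' i hi)
        rw [hodd]; linarith
      have := hale (ν x) v
      linarith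
  obtain ⟨w, hw⟩ : ∃ w : X → V → ℝ, ∀ x v, w x v = max 0 (m x v - (a x - a (ν x)) / 2) :=
    ⟨fun x v => max 0 (m x v - (a x - a (ν x)) / 2), fun _ _ => rfl⟩
  have hwc : ∀ v, Continuous fun x => w x v := by
    intro v
    simp only [hw]
    exact continuous_const.max ((hmc v).sub ((hac.sub (hac.comp hν)).div_const 2))
  have hw0 : ∀ x v, 0 ≤ w x v := fun x v => by rw [hw]; exact le_max_left _ _
  have hwex : ∀ x, ∃ v, 0 < w x v := fun x => by
    obtain ⟨v, hv⟩ := haex x
    refine ⟨v, ?_⟩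
    rw [hw, ← hv]
    have := key x
    exact lt_max_of_lt_right (by linarith)
  have hwsum : ∀ x, 0 < ∑ v, w x v := fun x => by
    obtain ⟨v, hv⟩ := hwex x
    exact Finset.sum_pos' (fun v _ => hw0 x v) ⟨v, Finset.mem_univ v, hv⟩
  have hT : ∀ x, 0 < ∑ v, w x v + ∑ v, w (ν x) v := fun x => add_pos (hwsum x) (hwsum (ν x))
  have hwne : ∀ x v, w x v ≠ 0 → ∀ i ∈ e v, (a x - a (ν x)) / 2 < u x i := by
    intro x v h i hi
    have h1 : 0 < w x v := lt_of_le_of_ne (hw0 x v) (Ne.symm h)
    rw [hw] at h1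
    rcases lt_max_iff.1 h1 with h2 | h2
    · exact absurd h2 (lt_irrefl _)
    · have := hmle x v i hi
      linarith
  refine ⟨fun x v => w x v / (∑ v, w x v + ∑ v, w (ν x) v), ?_, ?_, ?_, ?_, ?_⟩
  · refine continuous_pi fun v => (hwc v).div ?_ fun x => (hT x).ne'
    exact (continuous_finsetSum _ fun v _ => hwc v).add
      (continuous_finsetSum _ fun v _ => (hwc v).comp hν)
  · exact fun x v => div_nonneg (hw0 x v) (hT x).le
  · intro x
    simp only [hνν]
    rw [← Finset.sum_div, ← Finset.sum_div, add_comm (∑ v, w (ν x) v), ← add_div]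
    exact div_self (hT x).ne'
  · intro x
    obtain ⟨v, hv⟩ := hwex x
    exact ⟨v, (div_pos hv (hT x)).ne'⟩
  · intro x v v' h1 h2
    have h3 : w x v ≠ 0 := fun h => h1 (by simp only [h, zero_div])
    have h4 : w (ν x) v' ≠ 0 := fun h => h2 (by simp only [h, zero_div])
    rw [Finset.disjoint_left]
    intro i hi hi'
    have h5 := hwne x v h3 i hi
    have h6 := hwne (ν x) v' h4 i hi'
    rw [hνν, hodd] at h6
    linarith

/-- The sliding hyperplane on the moment curve. -/
theorem sphere_weights {V W : Type*} [Fintype V] [Nonempty V]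
    (e : V → Finset W) (hne : ∀ v, (e v).Nonempty) (S : Finset W) (hS : ∀ v, e v ⊆ S) (d : ℕ)
    (hcd : ∀ U ⊆ S, U.card ≤ d + 1 → ∀ c : W → Bool,
      ∃ v, (∀ i ∈ e v, i ∉ U) ∧ ∃ b, ∀ i ∈ e v, c i = b) :
    ∃ p : Metric.sphere (0 : EuclideanSpace ℝ (Fin (d + 1))) 1 → V → ℝ,
      Continuous p ∧ (∀ x v, 0 ≤ p x v) ∧
      (∀ x, ∑ v, p x v + ∑ v, p (-x) v = 1) ∧ (∀ x, ∃ v, p x v ≠ 0) ∧
      ∀ x v w, p x v ≠ 0 → p (-x) w ≠ 0 → Disjoint (e v) (e w) := by
  classical
  obtain ⟨τ, hτ⟩ : ∃ τ : W → ℝ, Set.InjOn τ S := by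
    refine ⟨fun i => if h : i ∈ S then ((S.equivFin ⟨i, h⟩ : ℕ) : ℝ) else 0, ?_⟩
    intro i hi j hj h
    have hi' : i ∈ S := hi
    have hj' : j ∈ S := hj
    simp only [hi', hj', dif_pos] at h
    have h1 : S.equivFin ⟨i, hi'⟩ = S.equivFin ⟨j, hj'⟩ := Fin.ext (by exact_mod_cast h)
    exact congrArg Subtype.val (S.equivFin.injective h1)
  refine slide (fun x => -x) continuous_neg (fun x => neg_neg x) e hne S hS
    (fun x i => ∑ j : Fin (d + 1), x.1 j * τ i ^ ((j : ℕ) + 1)) ?_ ?_ (d + 1) ?_ hcd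
  · intro i
    fun_prop
  · intro x i
    simp [Finset.sum_neg_distrib]
  · intro x s U hU hlev
    refine level_card_le τ S hτ d (fun j => x.1 j) ?_ s U hU hlev
    intro h
    have h1 : x.1 = 0 := by
      ext j; exact congrFun h j
    have h2 := x.2
    rw [h1] at h2
    simp at h2

end Pool.Agent.P.MP_1c213c_co
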